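import Mathlib
import Pool.Agent.Helper398.EEFinal
import Pool.Agent.Helper398.Bridge

set_option autoImplicit false

namespace Pool.Agent.Results.MP_d40e3c_co.SharpConstant

/-- `Σ* A`: the set of sums of the nonempty subsets of `A` (each element used at most once). -/
def SigmaStar {G : Type} [AddCommGroup G] (A : Finset G) : Set G :=
  {s | ∃ B : Finset G, B ⊆ A ∧ B.Nonempty ∧ ∑ b ∈ B, b = s}

/-- `A` is weakly zero-sum-free: `0 ∉ Σ* A`. -/
def WeaklyZeroSumFree {G : Type} [AddCommGroup G] (A : Finset G) : Prop := (0 : G) ∉ SigmaStar A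

/-- All values of `|Σ* A|`, where `A` runs over the weakly zero-sum-free `m`-element subsets of all
finite abelian groups. -/
def values (m : ℕ) : Set ℕ :=
  {k | ∃ (G : Type) (_ : AddCommGroup G) (_ : Finite G) (A : Finset G),
    A.card = m ∧ WeaklyZeroSumFree A ∧ (SigmaStar A).ncard = k}

/-- `f(m)`: the minimum of `|Σ* A|` over the weakly zero-sum-free `m`-element subsets `A` of all
finite abelian groups. -/
noncomputable def f (m : ℕ) : ℕ := sInf (values m)

theorem exists_value_le (m : ℕ) : ∃ k ∈ values m, k ≤ m ^ 2 / 2 + 1 := by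
  classical
  obtain ⟨A, hA, hA2, hA3⟩ := Pool.Agent.Helper398.example_upper m
  have h0 : (0 : ZMod (m ^ 2 + 1) × ZMod 2) ∉ SigmaStar A := by
    rintro ⟨B, hB, hne, hs⟩
    exact hA2 B hB hne hs
  have h1 := Pool.Agent.Helper398.ncard_bridge A (SigmaStar A) (fun s => Iff.rfl) h0
  exact ⟨(SigmaStar A).ncard, ⟨ZMod (m ^ 2 + 1) × ZMod 2, inferInstance, inferInstance, A, hA, h0,
    rfl⟩, by omega⟩

theorem f_mem (m : ℕ) : f m ∈ values m := by
  obtain ⟨k, hk, -⟩ := exists_value_le m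
  exact Nat.sInf_mem ⟨k, hk⟩

theorem f_le (m : ℕ) : f m ≤ m ^ 2 / 2 + 1 := by
  obtain ⟨k, hk, hk2⟩ := exists_value_le m
  exact le_trans (Nat.sInf_le hk) hk2

theorem exists_exact : ∃ M : ℕ, ∀ m : ℕ, M ≤ m → f m = m ^ 2 / 2 + 1 := by
  classical
  obtain ⟨M, hM⟩ := Pool.Agent.Helper398.main_exact
  refine ⟨M, fun m hm => le_antisymm (f_le m) ?_⟩
  obtain ⟨G, _, _, A, hA, h0, hk⟩ := f_mem m
  have h1 := Pool.Agent.Helper398.ncard_bridge A (SigmaStar A) (fun s => Iff.rfl) h0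
  have h2 := hM G A
    (Pool.Agent.Helper398.ZSF_of_notMem A (SigmaStar A) (fun s => Iff.rfl) h0) (by omega)
  rw [hA] at h2
  omega

/-- For real `c`, the bound `f(m) ≥ ⌈c m²⌉` holds for all but finitely many `m` exactly when
`c ≤ 1/2`. In particular it does for some `c > 1/9`. -/
theorem result (c : ℝ) :
    {m : ℕ | (f m : ℤ) < ⌈c * (m : ℝ) ^ 2⌉}.Finite ↔ c ≤ 1 / 2 := by
  obtain ⟨M, hM⟩ := exists_exact
  constructor
  · intro hfin
    by_contra hc
    push Not at hc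
    obtain ⟨K, hK⟩ := exists_nat_gt (1 / (c - 1 / 2))
    apply hfin.not_infinite
    apply Set.infinite_of_not_bddAbove
    rintro ⟨b, hb⟩
    obtain ⟨m, hm⟩ : ∃ m, m = max M (max (K + 1) (b + 1)) := ⟨_, rfl⟩
    have hm1 : M ≤ m := by omega
    have hm2 : K + 1 ≤ m := by omega
    have hm3 : b + 1 ≤ m := by omega
    have h1 : m ∈ {m : ℕ | (f m : ℤ) < ⌈c * (m : ℝ) ^ 2⌉} := by
      show (f m : ℤ) < ⌈c * (m : ℝ) ^ 2⌉
      have h2 : 2 * (m ^ 2 / 2) ≤ m ^ 2 := Nat.mul_div_le _ _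
      rw [hM m hm1, Int.lt_ceil]
      generalize m ^ 2 / 2 = q at h2 ⊢
      have h3 : 2 * (q : ℝ) ≤ (m : ℝ) ^ 2 := by exact_mod_cast h2
      have h4 : (K : ℝ) + 1 ≤ m := by exact_mod_cast hm2
      have hpos : 0 < c - 1 / 2 := by linarith
      rw [div_lt_iff₀ hpos] at hK
      have hK0 : (0 : ℝ) ≤ K := Nat.cast_nonneg _
      have h5 : (1 : ℝ) < (c - 1 / 2) * (m : ℝ) ^ 2 := by nlinarith
      push_cast
      linarith
    have := hb h1
    omega
  · intro hc
    apply Set.Finite.subset (Set.finite_lt_nat M)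
    intro m hm
    show m < M
    replace hm : (f m : ℤ) < ⌈c * (m : ℝ) ^ 2⌉ := hm
    by_contra hlt
    push Not at hlt
    have h2 : m ^ 2 < 2 * (m ^ 2 / 2) + 2 := by omega
    rw [hM m hlt, Int.lt_ceil] at hm
    generalize m ^ 2 / 2 = q at h2 hm
    have h3 : (m : ℝ) ^ 2 < 2 * (q : ℝ) + 2 := by exact_mod_cast h2
    push_cast at hm
    have h4 : c * (m : ℝ) ^ 2 ≤ 1 / 2 * (m : ℝ) ^ 2 := by
      apply mul_le_mul_of_nonneg_right hc (by positivity)
    linarith

end Pool.Agent.Results.MP_d40e3c_co.SharpConstant
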